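import Pool.Agent.H43.BZ.Stm4

set_option autoImplicit false

open MeasureTheory Set

namespace Pool.Agent.H345.BZPOW

open Pool.Agent.H43.BZ

lemma int_pow (T p : ℝ) (hT : 0 < T) (hp : -1 < p) :
    IntegrableOn (fun t : ℝ => (T - t) ^ p) (Ico 0 T) := by
  have h1 : IntervalIntegrable (fun x : ℝ => x ^ p) volume 0 T :=
    intervalIntegral.intervalIntegrable_rpow' hp
  have h2 := h1.comp_sub_left T
  simp only [sub_zero, sub_self] at h2
  have h3 : IntegrableOn (fun t : ℝ => (T - t) ^ p) (Ioc 0 T) := by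
    have := h2.symm
    exact (intervalIntegrable_iff_integrableOn_Ioc_of_le hT.le).1 this
  have h4 : IntegrableOn (fun t : ℝ => (T - t) ^ p) (Icc 0 T) :=
    (integrableOn_Icc_iff_integrableOn_Ioc (by simp)).2 h3
  exact h4.mono_set Ico_subset_Icc_self

theorem POW : S_POW := by
  intro d γ T A a e hd hγ hγ2 hT ha he
  have hd' : (2 : ℝ) ≤ d := by exact_mod_cast hd
  have hdg : 0 < (d : ℝ) + γ := by linarith
  have h2g : 0 < 2 - γ := by linarith
  set x₀ : ℝ := 1 / ((d : ℝ) + γ) with hx₀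
  have hx₀p : 0 < x₀ := by positivity
  have hdx₀ : ((d : ℝ) + γ) * x₀ = 1 := by
    rw [hx₀]; field_simp
  have hlow : (e - 1) / (2 - γ) < x₀ := by
    rw [div_lt_iff₀ h2g]
    have : ((d : ℝ) + 2) / (d + γ) = 1 + x₀ * (2 - γ) := by
      rw [hx₀]; field_simp; ring
    linarith
  set y : ℝ := ((e - 1) / (2 - γ) + x₀) / 2 with hy
  have hy1 : y < x₀ := by rw [hy]; linarith
  have hy2 : (e - 1) / (2 - γ) < y := by rw [hy]; linarith
  set x : ℝ := max 0 y with hx
  have hx0 : 0 ≤ x := le_max_left _ _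
  have hxx : x < x₀ := max_lt hx₀p hy1
  have hxy : (e - 1) / (2 - γ) < x := lt_of_lt_of_le hy2 (le_max_right _ _)
  have hc1 : x * γ + a < 1 := by
    have h1 : (d : ℝ) / (d + γ) = 1 - x₀ * γ := by
      rw [hx₀]; field_simp; ring
    have h2 : x * γ ≤ x₀ * γ := mul_le_mul_of_nonneg_right hxx.le hγ
    linarith
  have hc2 : x * γ + e - 2 * x < 1 := by
    rw [div_lt_iff₀ h2g] at hxy
    nlinarith
  refine ⟨x, hx0, ?_, ?_⟩
  · calc ((d : ℝ) + γ) * x < ((d : ℝ) + γ) * x₀ := mul_lt_mul_of_pos_left hxx hdg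
      _ = 1 := hdx₀
  · have h1 := int_pow T (-(x * γ + a)) hT (by linarith)
    have h2 := int_pow T (-(x * γ + e - 2 * x)) hT (by linarith)
    have h3 : IntegrableOn (fun t : ℝ => 2 * A * (T - t) ^ (-(x * γ + a)) +
        2 * A * (T - t) ^ (-(x * γ + e - 2 * x))) (Ico 0 T) :=
      (h1.const_mul (2 * A)).add (h2.const_mul (2 * A))
    refine h3.congr_fun (fun t ht => ?_) measurableSet_Ico
    have hp : 0 < T - t := by linarith [ht.2]
    have e1 : ((T - t) ^ (-x)) ^ γ = (T - t) ^ (-x * γ) := (Real.rpow_mul hp.le _ _).symm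
    have e2 : ((T - t) ^ (-x)) ^ 2 = (T - t) ^ (-x * 2) := by
      rw [Real.rpow_mul hp.le, Real.rpow_two]
    have e3 : (T - t) ^ (-(x * γ + a)) = (T - t) ^ (-x * γ) * (T - t) ^ (-a) := by
      rw [← Real.rpow_add hp]; congr 1; ring
    have e4 : (T - t) ^ (-(x * γ + e - 2 * x)) =
        (T - t) ^ (-x * γ) * ((T - t) ^ (-e) / (T - t) ^ (-x * 2)) := by
      rw [← Real.rpow_sub hp, ← Real.rpow_add hp]; congr 1; ring
    simp only
    rw [e1, e2, e3, e4]
    ring

end Pool.Agent.H345.BZPOW
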